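import Mathlib

namespace Pool.Agent.Lib.MP_882ac6_an

universe u

/-- Pigeonhole: an uncountable set coloured by a countable type has an uncountable monochromatic
subset. -/
theorem exists_uncountable_fiber {I : Type u} {N : Type*} [Countable N] (Γ : Set I)
    (hΓ : ¬ Γ.Countable) (f : I → N) : ∃ n, ¬ {ξ ∈ Γ | f ξ = n}.Countable := by
  by_contra hcon
  push Not at hcon
  apply hΓ
  have : Γ = ⋃ n, {ξ ∈ Γ | f ξ = n} := by
    ext ξ
    simp
  rw [this]
  exact Set.countable_iUnion hcon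

/-- Δ-system lemma, bounded sizes. -/
theorem delta_aux {I : Type u} [DecidableEq I] (n : ℕ) : ∀ (Γ : Set I) (_ : ¬ Γ.Countable)
    (e : I → Finset I) (_ : ∀ ξ ∈ Γ, (e ξ).card ≤ n),
    ∃ Γ' ⊆ Γ, ¬ Γ'.Countable ∧ ∃ r : Finset I, ∀ ξ ∈ Γ', ∀ ξ' ∈ Γ', ξ ≠ ξ' → e ξ ∩ e ξ' ⊆ r := by
  induction n with
  | zero =>
    intro Γ hΓ e he
    refine ⟨Γ, subset_rfl, hΓ, ∅, fun ξ hξ ξ' _ _ => ?_⟩
    have : e ξ = ∅ := Finset.card_eq_zero.1 (Nat.le_zero.1 (he ξ hξ))
    rw [this]; simp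
  | succ n ih =>
    intro Γ hΓ e he
    obtain ⟨M, hM⟩ := zorn_subset {M : Set I | M ⊆ Γ ∧ ∀ ξ ∈ M, ∀ ξ' ∈ M, ξ ≠ ξ' →
      Disjoint (e ξ) (e ξ')} (by
        intro c hc hchain
        refine ⟨⋃₀ c, ⟨Set.sUnion_subset fun s hs => (hc hs).1, ?_⟩, fun s hs =>
          Set.subset_sUnion_of_mem hs⟩
        rintro ξ ⟨s, hs, hξs⟩ ξ' ⟨t, ht, hξt⟩ hne
        rcases hchain.total hs ht with h | h
        · exact (hc ht).2 ξ (h hξs) ξ' hξt hne
        · exact (hc hs).2 ξ hξs ξ' (h hξt) hne)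
    have hM1 : M ⊆ Γ := hM.prop.1
    have hM2 : ∀ ξ ∈ M, ∀ ξ' ∈ M, ξ ≠ ξ' → Disjoint (e ξ) (e ξ') := hM.prop.2
    by_cases hMc : M.Countable
    · have hU : (⋃ ξ ∈ M, (e ξ : Set I)).Countable :=
        hMc.biUnion fun ξ _ => (e ξ).countable_toSet
      have hrest : ¬ (Γ \ M).Countable := by
        intro h
        exact hΓ ((h.union hMc).mono (by intro x hx; by_cases h : x ∈ M <;> simp [h, hx]))
      have hcov : Γ \ M ⊆ ⋃ u ∈ (⋃ ξ ∈ M, (e ξ : Set I)), {ξ ∈ Γ \ M | u ∈ e ξ} := by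
        intro ξ hξ
        by_contra hcon
        have hdisj : ∀ ξ' ∈ M, Disjoint (e ξ) (e ξ') := by
          intro ξ' hξ'
          rw [Finset.disjoint_left]
          intro u hu hu'
          apply hcon
          simp only [Set.mem_iUnion]
          exact ⟨u, ⟨ξ', hξ', hu'⟩, hξ, hu⟩
        have hmem : insert ξ M ∈ {M : Set I | M ⊆ Γ ∧ ∀ ξ ∈ M, ∀ ξ' ∈ M, ξ ≠ ξ' →
            Disjoint (e ξ) (e ξ')} := by
          refine ⟨Set.insert_subset hξ.1 hM1, ?_⟩
          intro x hx y hy hxy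
          rcases hx with rfl | hx <;> rcases hy with rfl | hy
          · exact absurd rfl hxy
          · exact hdisj y hy
          · exact (hdisj x hx).symm
          · exact hM2 x hx y hy hxy
        exact hξ.2 (hM.le_of_ge hmem (Set.subset_insert _ _) (Set.mem_insert _ _))
      have : ∃ u, ¬ {ξ ∈ Γ \ M | u ∈ e ξ}.Countable := by
        by_contra hcon
        push Not at hcon
        exact hrest ((hU.biUnion fun u _ => hcon u).mono hcov)
      obtain ⟨u, hu⟩ := this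
      obtain ⟨Γ', hΓ', hunc, r, hr⟩ := ih _ hu (fun ξ => (e ξ).erase u) (by
        intro ξ hξ
        have h1 := he ξ hξ.1.1
        have h2 := Finset.card_erase_of_mem hξ.2
        omega)
      refine ⟨Γ', fun x hx => (hΓ' hx).1.1, hunc, insert u r, ?_⟩
      intro ξ hξ ξ' hξ' hne a ha
      rw [Finset.mem_inter] at ha
      by_cases hau : a = u
      · simp [hau]
      · exact Finset.mem_insert_of_mem (hr ξ hξ ξ' hξ' hne (by simp [hau, ha.1, ha.2]))
    · refine ⟨M, hM1, hMc, ∅, fun ξ hξ ξ' hξ' hne => ?_⟩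
      have := hM2 ξ hξ ξ' hξ' hne
      rw [Finset.disjoint_iff_inter_eq_empty] at this
      rw [this]

/-- Δ-system lemma. -/
theorem delta_system {I : Type u} [DecidableEq I] (Γ : Set I) (hΓ : ¬ Γ.Countable)
    (e : I → Finset I) :
    ∃ Γ' ⊆ Γ, ¬ Γ'.Countable ∧ ∃ r : Finset I, ∀ ξ ∈ Γ', ∀ ξ' ∈ Γ', ξ ≠ ξ' → e ξ ∩ e ξ' ⊆ r := by
  obtain ⟨n, hn⟩ := exists_uncountable_fiber Γ hΓ (fun ξ => (e ξ).card)
  obtain ⟨Γ', h1, h2, r, hr⟩ := delta_aux n _ hn e (fun ξ hξ => hξ.2.le)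
  exact ⟨Γ', fun x hx => (h1 hx).1, h2, r, hr⟩

/-- Free sets. -/
theorem free_set {I : Type u} [DecidableEq I] (b : I → Finset I) (M : ℕ) :
    ∀ (Γ : Set I) (_ : ¬ Γ.Countable), ∃ D : Finset I, (D : Set I) ⊆ Γ ∧ D.card = M ∧
      ∀ ξ ∈ D, ∀ ξ' ∈ D, ξ ≠ ξ' → ξ' ∉ b ξ := by
  induction M with
  | zero =>
    intro Γ _
    exact ⟨∅, by simp, by simp, by simp⟩
  | succ M ih =>
    intro Γ hΓ
    have hinf : Γ.Infinite := fun h => hΓ h.countable
    obtain ⟨C, hCΓ, hCinf, hCc⟩ : ∃ C ⊆ Γ, C.Infinite ∧ C.Countable := by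
      obtain ⟨f, hf, hf2⟩ : ∃ f : ℕ → I, Function.Injective f ∧ ∀ n, f n ∈ Γ := by
        refine ⟨fun n => (hinf.natEmbedding Γ n : I), ?_, fun n => (hinf.natEmbedding Γ n).2⟩
        intro a b hab
        exact (hinf.natEmbedding Γ).injective (Subtype.ext hab)
      exact ⟨Set.range f, Set.range_subset_iff.2 hf2, Set.infinite_range_of_injective hf,
        Set.countable_range f⟩
    have hbad : (C ∪ ⋃ c ∈ C, (b c : Set I)).Countable :=
      hCc.union (hCc.biUnion fun c _ => (b c).countable_toSet)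
    have hrest : ¬ (Γ \ (C ∪ ⋃ c ∈ C, (b c : Set I))).Countable := by
      intro h
      exact hΓ ((h.union hbad).mono (by intro x hx; simp only [Set.mem_union, Set.mem_sdiff]; tauto))
    obtain ⟨D', hD'Γ, hD'card, hD'⟩ := ih _ hrest
    have hfin : ((D'.biUnion b : Finset I) : Set I).Finite := Finset.finite_toSet _
    obtain ⟨ξ, hξC, hξ⟩ := hCinf.exists_notMem_finite hfin
    have hξD' : ξ ∉ D' := by
      intro h
      exact (hD'Γ h).2 (Or.inl hξC)
    refine ⟨insert ξ D', ?_, by rw [Finset.card_insert_of_notMem hξD', hD'card], ?_⟩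
    · intro x hx
      rw [Finset.coe_insert] at hx
      rcases hx with rfl | hx
      · exact hCΓ hξC
      · exact (hD'Γ hx).1
    · intro x hx y hy hxy
      rw [Finset.mem_insert] at hx hy
      rcases hx with rfl | hx <;> rcases hy with rfl | hy
      · exact absurd rfl hxy
      · intro hyb
        apply (hD'Γ hy).2
        right
        simp only [Set.mem_iUnion]
        exact ⟨x, hξC, hyb⟩
      · intro hyb
        apply hξ
        simp only [Finset.coe_biUnion, Set.mem_iUnion]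
        exact ⟨x, hx, hyb⟩
      · exact hD' x hx y hy hxy

/-- Free sets split in blocks of prescribed sizes. -/
theorem free_blocks {I : Type u} [DecidableEq I] (b : I → Finset I) (Γ : Set I)
    (hΓ : ¬ Γ.Countable) (K : ℕ → ℕ) (J : ℕ) :
    ∃ D : ℕ → Finset I, (∀ j < J, (D j : Set I) ⊆ Γ ∧ (D j).card = K j) ∧
      (∀ j < J, ∀ l < J, ∀ ξ ∈ D j, ξ ∈ D l → j = l) ∧
      ∀ j < J, ∀ l < J, ∀ ξ ∈ D j, ∀ ξ' ∈ D l, ξ ≠ ξ' → ξ' ∉ b ξ := by
  obtain ⟨E, hE1, hE2, hE3⟩ := free_set b (Fintype.card (Σ j : Fin J, Fin (K j))) Γ hΓ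
  have hcard : Fintype.card (Σ j : Fin J, Fin (K j)) = Fintype.card E := by
    rw [Fintype.card_coe, hE2]
  let g := Fintype.equivOfCardEq hcard
  refine ⟨fun j => if h : j < J then
    (Finset.univ : Finset (Fin (K j))).image (fun s => (g ⟨⟨j, h⟩, s⟩ : I)) else ∅, ?_, ?_, ?_⟩
  · intro j hj
    simp only [hj, dif_pos]
    constructor
    · intro x hx
      rw [Finset.mem_coe, Finset.mem_image] at hx
      obtain ⟨s, _, rfl⟩ := hx
      exact hE1 (g ⟨⟨j, hj⟩, s⟩).2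
    · rw [Finset.card_image_of_injective]
      · simp
      · intro s t hst
        have := g.injective (Subtype.ext hst)
        simpa using this
  · intro j hj l hl ξ hξ hξ'
    simp only [hj, hl, dif_pos, Finset.mem_image, Finset.mem_univ, true_and] at hξ hξ'
    obtain ⟨s, rfl⟩ := hξ
    obtain ⟨t, ht⟩ := hξ'
    have := g.injective (Subtype.ext ht)
    have h2 := congrArg (fun p : (Σ j : Fin J, Fin (K j)) => (p.1 : ℕ)) this
    exact h2.symm
  · intro j hj l hl ξ hξ ξ' hξ' hne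
    simp only [hj, hl, dif_pos, Finset.mem_image, Finset.mem_univ, true_and] at hξ hξ'
    obtain ⟨s, rfl⟩ := hξ
    obtain ⟨t, rfl⟩ := hξ'
    exact hE3 _ (g ⟨⟨j, hj⟩, s⟩).2 _ (g ⟨⟨l, hl⟩, t⟩).2 hne

end Pool.Agent.Lib.MP_882ac6_an
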