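import Mathlib

open Topology

namespace Pool.Agent.Lib.MP_882ac6_an

universe u

/-- `z` and `z'` are indistinguishable by positions `< n` and labels in `e`. -/
def Eqv {I : Type u} (n : ℕ) (e : Finset I) (z z' : ℕ → OnePoint I) : Prop :=
  ∀ k < n, ∀ a ∈ e, (z k = (a : OnePoint I) ↔ z' k = (a : OnePoint I))

section

variable {I : Type u}

theorem Eqv.refl (n : ℕ) (e : Finset I) (z : ℕ → OnePoint I) : Eqv n e z z :=
  fun _ _ _ _ => Iff.rfl

theorem Eqv.symm {n : ℕ} {e : Finset I} {z z' : ℕ → OnePoint I} (h : Eqv n e z z') :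
    Eqv n e z' z := fun k hk a ha => (h k hk a ha).symm

theorem Eqv.trans {n : ℕ} {e : Finset I} {z z' z'' : ℕ → OnePoint I} (h : Eqv n e z z')
    (h' : Eqv n e z' z'') : Eqv n e z z'' := fun k hk a ha => (h k hk a ha).trans (h' k hk a ha)

theorem Eqv.mono {n m : ℕ} {e e' : Finset I} {z z' : ℕ → OnePoint I} (h : Eqv n e z z')
    (hmn : m ≤ n) (he : e' ⊆ e) : Eqv m e' z z' :=
  fun k hk a ha => h k (hk.trans_le hmn) a (he ha)

variable [TopologicalSpace I] [DiscreteTopology I]

theorem isClopen_singleton_coe (a : I) : IsClopen ({(a : OnePoint I)} : Set (OnePoint I)) := by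
  refine ⟨isClosed_singleton, ?_⟩
  have : ({(a : OnePoint I)} : Set (OnePoint I)) = (fun x : I => (x : OnePoint I)) '' {a} := by
    simp
  rw [this]
  exact OnePoint.isOpen_image_coe.2 (isOpen_discrete _)

theorem isOpen_eqv (n : ℕ) (e : Finset I) (z : ℕ → OnePoint I) : IsOpen {w | Eqv n e z w} := by
  have : {w | Eqv n e z w} = ⋂ k ∈ Finset.range n, ⋂ a ∈ e,
      {w : ℕ → OnePoint I | z k = (a : OnePoint I) ↔ w k = (a : OnePoint I)} := by
    ext w
    simp [Eqv]
  rw [this]
  refine isOpen_biInter_finset fun k _ => isOpen_biInter_finset fun a _ => ?_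
  by_cases h : z k = (a : OnePoint I)
  · have : {w : ℕ → OnePoint I | z k = (a : OnePoint I) ↔ w k = (a : OnePoint I)} =
        (fun w : ℕ → OnePoint I => w k) ⁻¹' {(a : OnePoint I)} := by
      ext w; simp [h]
    rw [this]
    exact (isClopen_singleton_coe a).isOpen.preimage (continuous_apply k)
  · have : {w : ℕ → OnePoint I | z k = (a : OnePoint I) ↔ w k = (a : OnePoint I)} =
        (fun w : ℕ → OnePoint I => w k) ⁻¹' ({(a : OnePoint I)}ᶜ) := by
      ext w; simp [h]
    rw [this]
    exact (isClopen_singleton_coe a).compl.isOpen.preimage (continuous_apply k)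

/-- Sets saturated for `Eqv n e` are clopen. -/
theorem isClopen_of_saturated (n : ℕ) (e : Finset I) (W : Set (ℕ → OnePoint I))
    (hW : ∀ z z', Eqv n e z z' → z ∈ W → z' ∈ W) : IsClopen W := by
  constructor
  · rw [← isOpen_compl_iff, isOpen_iff_mem_nhds]
    intro z hz
    filter_upwards [(isOpen_eqv n e z).mem_nhds (Eqv.refl n e z)] with w hw hwW
    exact hz (hW _ _ hw.symm hwW)
  · rw [isOpen_iff_mem_nhds]
    intro z hz
    filter_upwards [(isOpen_eqv n e z).mem_nhds (Eqv.refl n e z)] with w hw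
    exact hW _ _ hw hz

/-- Basic neighbourhoods. -/
theorem exists_eqv_subset_of_mem_nhds (z : ℕ → OnePoint I) (U : Set (ℕ → OnePoint I))
    (hU : U ∈ 𝓝 z) : ∃ (n : ℕ) (e : Finset I), {w | Eqv n e z w} ⊆ U := by
  classical
  obtain ⟨V, hVU, hV, hzV⟩ := mem_nhds_iff.1 hU
  obtain ⟨F, u, hu, hsub⟩ := isOpen_pi_iff.1 hV z hzV
  have key : ∀ k, ∃ e : Finset I, k ∈ F → ∀ p : OnePoint I,
      (∀ a ∈ e, (z k = (a : OnePoint I) ↔ p = (a : OnePoint I))) → p ∈ u k := by
    intro k
    by_cases hk : k ∈ F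
    · obtain ⟨hok, hmk⟩ := hu k hk
      rcases hzk : z k with _ | a
      · have hinf : OnePoint.infty ∈ u k := by
          have : z k = OnePoint.infty := hzk
          rw [this] at hmk; exact hmk
        have hz' : z k = OnePoint.infty := hzk
        have h1 := (OnePoint.isOpen_iff_of_mem hinf).1 hok
        have h2 : (((fun x : I => (x : OnePoint I)) ⁻¹' (u k))ᶜ).Finite :=
          isCompact_iff_finite.1 h1.2
        refine ⟨h2.toFinset, fun _ p hp => ?_⟩
        induction p using OnePoint.rec with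
        | infty => exact hinf
        | coe b =>
          by_contra hb
          have hb' : b ∈ h2.toFinset := by
            rw [Set.Finite.mem_toFinset]; exact hb
          have := (hp b hb').2 rfl
          exact OnePoint.infty_ne_coe b this
      · have hz' : z k = (a : OnePoint I) := hzk
        refine ⟨{a}, fun _ p hp => ?_⟩
        have := (hp a (Finset.mem_singleton_self a)).1 rfl
        rw [this, ← hz']; exact hmk
    · exact ⟨∅, fun h => absurd h hk⟩
  choose e he using key
  refine ⟨F.sup id + 1, F.biUnion e, ?_⟩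
  intro w hw
  apply hVU
  apply hsub
  intro k hk
  apply he k hk
  intro a ha
  exact hw k (Nat.lt_succ_of_le (Finset.le_sup (f := id) hk)) a (Finset.mem_biUnion.2 ⟨k, hk, ha⟩)

/-- Lemma A: a continuous function on `A(κ)^ℕ` depends, up to `ε`, on finite information. -/
theorem lemmaA (t : C(ℕ → OnePoint I, ℝ)) {ε : ℝ} (hε : 0 < ε) :
    ∃ (n : ℕ) (e : Finset I), ∀ z z', Eqv n e z z' → |t z - t z'| ≤ ε := by
  classical
  have key : ∀ z : ℕ → OnePoint I, ∃ (n : ℕ) (e : Finset I), ∀ w, Eqv n e z w →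
      |t w - t z| < ε / 2 := by
    intro z
    obtain ⟨n, e, h⟩ := exists_eqv_subset_of_mem_nhds z {w | |t w - t z| < ε / 2} (by
      have hc : Continuous fun w => |t w - t z| := by fun_prop
      exact (isOpen_lt hc continuous_const).mem_nhds (by simpa using hε))
    exact ⟨n, e, fun w hw => h hw⟩
  choose n e hne using key
  obtain ⟨s, hs⟩ := isCompact_univ.elim_finite_subcover (fun z => {w | Eqv (n z) (e z) z w})
    (fun z => isOpen_eqv _ _ _) (fun z _ => Set.mem_iUnion.2 ⟨z, Eqv.refl _ _ _⟩)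
  refine ⟨s.sup n, s.biUnion e, fun z z' hzz' => ?_⟩
  have hz := hs (Set.mem_univ z)
  simp only [Set.mem_iUnion] at hz
  obtain ⟨y, hy, hyz⟩ := hz
  have hyz : Eqv (n y) (e y) y z := hyz
  have h1 := hne y z hyz
  have h2 := hne y z' (hyz.trans (hzz'.mono (Finset.le_sup hy)
    (Finset.subset_biUnion_of_mem e hy)))
  rw [abs_lt] at h1 h2
  rw [abs_le]
  constructor <;> linarith [h1.1, h1.2, h2.1, h2.2]

end

/-- The ball `B(P)` of `ℓ₁(P)` with the pointwise topology. -/
def Ball (P : Type u) : Type u := {x : P → ℝ // ∀ s : Finset P, ∑ i ∈ s, |x i| ≤ 1}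

instance (P : Type u) : TopologicalSpace (Ball P) :=
  inferInstanceAs (TopologicalSpace {x : P → ℝ // ∀ s : Finset P, ∑ i ∈ s, |x i| ≤ 1})

section

variable {P : Type u}

theorem ball_isClosed : IsClosed {x : P → ℝ | ∀ s : Finset P, ∑ i ∈ s, |x i| ≤ 1} := by
  have : {x : P → ℝ | ∀ s : Finset P, ∑ i ∈ s, |x i| ≤ 1} =
      ⋂ s : Finset P, {x : P → ℝ | ∑ i ∈ s, |x i| ≤ 1} := by
    ext x; simp
  rw [this]
  refine isClosed_iInter fun s => isClosed_le ?_ continuous_const
  exact continuous_finsetSum _ fun i _ => (continuous_apply i).abs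

theorem ball_isCompact : IsCompact {x : P → ℝ | ∀ s : Finset P, ∑ i ∈ s, |x i| ≤ 1} := by
  have h1 : IsCompact (Set.univ.pi fun _ : P => Set.Icc (-1 : ℝ) 1) :=
    isCompact_univ_pi fun _ => isCompact_Icc
  refine h1.of_isClosed_subset ball_isClosed ?_
  intro x hx i _
  have := hx {i}
  rw [Finset.sum_singleton] at this
  exact abs_le.1 this

instance : CompactSpace (Ball P) := isCompact_iff_compactSpace.1 (ball_isCompact (P := P))

theorem Ball.continuous_apply (i : P) : Continuous fun x : Ball P => x.1 i :=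
  (_root_.continuous_apply i).comp continuous_subtype_val

/-- Lemma B: a continuous function on the ball depends, up to `ε`, on finitely many
coordinates. -/
theorem lemmaB (F : C(Ball P, ℝ)) {ε : ℝ} (hε : 0 < ε) :
    ∃ a : Finset P, ∀ x y : Ball P, (∀ i ∈ a, x.1 i = y.1 i) → |F x - F y| ≤ ε := by
  classical
  have key : ∀ x : Ball P, ∃ (a : Finset P) (U : Set (Ball P)), IsOpen U ∧ x ∈ U ∧
      (∀ y y' : Ball P, (∀ i ∈ a, y.1 i = y'.1 i) → y ∈ U → y' ∈ U) ∧
      ∀ y ∈ U, |F y - F x| < ε / 2 := by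
    intro x
    have hc : Continuous fun w => |F w - F x| := by fun_prop
    have hopen := isOpen_lt hc (continuous_const (y := ε / 2))
    obtain ⟨V, hV, hVeq⟩ := isOpen_induced_iff.1 hopen
    have hxV : x.1 ∈ V := by
      have : x ∈ {b : Ball P | |F b - F x| < ε / 2} := by simpa using hε
      rw [← hVeq] at this
      exact this
    obtain ⟨a, u, hu, hsub⟩ := isOpen_pi_iff.1 hV x.1 hxV
    refine ⟨a, {y | ∀ i ∈ a, y.1 i ∈ u i}, ?_, fun i hi => (hu i hi).2, ?_, ?_⟩
    · have : {y : Ball P | ∀ i ∈ a, y.1 i ∈ u i} =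
          ⋂ i ∈ a, (fun y : Ball P => y.1 i) ⁻¹' (u i) := by
        ext y; simp
      rw [this]
      exact isOpen_biInter_finset fun i hi => (hu i hi).1.preimage (Ball.continuous_apply i)
    · intro y y' h hy i hi
      rw [← h i hi]; exact hy i hi
    · intro y hy
      have : y ∈ (Subtype.val ⁻¹' V : Set (Ball P)) := hsub fun i hi => hy i hi
      rw [hVeq] at this
      exact this
  choose a U hU1 hU2 hU3 hU4 using key
  obtain ⟨s, hs⟩ := isCompact_univ.elim_finite_subcover U hU1
    (fun z _ => Set.mem_iUnion.2 ⟨z, hU2 z⟩)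
  refine ⟨s.biUnion a, fun x y hxy => ?_⟩
  have hx := hs (Set.mem_univ x)
  simp only [Set.mem_iUnion] at hx
  obtain ⟨w, hw, hxw⟩ := hx
  have h1 := hU4 w x hxw
  have h2 := hU4 w y (hU3 w x y (fun i hi => hxy i (Finset.mem_biUnion.2 ⟨w, hw, hi⟩)) hxw)
  rw [abs_lt] at h1 h2
  rw [abs_le]
  constructor <;> linarith [h1.1, h1.2, h2.1, h2.2]

/-- The function `x ↦ min (K |x_i|) 1`. -/
def phi (K : ℝ) (i : P) : C(Ball P, ℝ) where
  toFun x := min (K * |x.1 i|) 1
  continuous_toFun := (continuous_const.mul (Ball.continuous_apply i).abs).min continuous_const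

end

end Pool.Agent.Lib.MP_882ac6_an
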