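import Pool.Agent.Lib.MP_882ac6_an.Comb
import Pool.Agent.Lib.MP_882ac6_an.Dep

open Topology

namespace Pool.Agent.Lib.MP_882ac6_an

universe u

section

variable {P : Type u}

theorem phi_apply (K : ℝ) (i : P) (x : Ball P) : phi K i x = min (K * |x.1 i|) 1 := rfl

theorem phi_nonneg {K : ℝ} (hK : 0 ≤ K) (i : P) (x : Ball P) : 0 ≤ phi K i x := by
  rw [phi_apply]; positivity

theorem norm_phi_le {K : ℝ} (hK : 0 ≤ K) (i : P) : ‖phi K i‖ ≤ 1 := by
  rw [ContinuousMap.norm_le _ zero_le_one]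
  intro x
  rw [Real.norm_eq_abs, abs_of_nonneg (phi_nonneg hK i x), phi_apply]
  exact min_le_right _ _

/-- Cutting a continuous function to a clopen set. -/
noncomputable def cut {X : Type*} [TopologicalSpace X] (W : Set X) (hW : IsClopen W)
    (g : C(X, ℝ)) : C(X, ℝ) where
  toFun := W.indicator g
  continuous_toFun := hW.continuous_indicator g.continuous

theorem cut_apply_mem {X : Type*} [TopologicalSpace X] {W : Set X} (hW : IsClopen W)
    (g : C(X, ℝ)) {x : X} (hx : x ∈ W) : cut W hW g x = g x := Set.indicator_of_mem hx _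

theorem cut_apply_notMem {X : Type*} [TopologicalSpace X] {W : Set X} (hW : IsClopen W)
    (g : C(X, ℝ)) {x : X} (hx : x ∉ W) : cut W hW g x = 0 := Set.indicator_of_notMem hx _

end

variable {I : Type u} [DecidableEq I] [TopologicalSpace I] [DiscreteTopology I]

theorem step (T : C(Ball (I × ℕ), ℝ) →L[ℝ] C(ℕ → OnePoint I, ℝ)) {ε : ℝ} (hε : 0 < ε)
    (Γ : Set I) (hΓ : ¬ Γ.Countable) (K : ℕ) (j : ℕ) :
    ∃ Γ' ⊆ Γ, ¬ Γ'.Countable ∧ ∃ (n : ℕ) (r : Finset I) (e : I → Finset I),
      (∀ ξ ∈ Γ', ∀ z z', Eqv n (r ∪ e ξ) z z' →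
        |T (phi (K : ℝ) (ξ, j)) z - T (phi (K : ℝ) (ξ, j)) z'| ≤ ε) ∧
      (∀ ξ ∈ Γ', ∀ ξ' ∈ Γ', ξ ≠ ξ' → Disjoint (e ξ) (e ξ')) := by
  choose n e hne using fun ξ : I => lemmaA (T (phi (K : ℝ) (ξ, j))) hε
  obtain ⟨m, hm⟩ := exists_uncountable_fiber Γ hΓ n
  obtain ⟨Γ', h1, h2, r, hr⟩ := delta_system _ hm e
  refine ⟨Γ', fun x hx => (h1 hx).1, h2, m, r, fun ξ => e ξ \ r, ?_, ?_⟩
  · intro ξ hξ z z' hz
    apply hne ξ z z'
    rw [(h1 hξ).2]
    apply hz.mono le_rfl
    intro a ha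
    simp only [Finset.mem_union, Finset.mem_sdiff]
    tauto
  · intro ξ hξ ξ' hξ' hne'
    rw [Finset.disjoint_left]
    intro a ha ha'
    rw [Finset.mem_sdiff] at ha ha'
    exact ha.2 (hr ξ hξ ξ' hξ' hne' (Finset.mem_inter.2 ⟨ha.1, ha'.1⟩))

/-- The data used in the construction. -/
structure Data (T : C(Ball (I × ℕ), ℝ) →L[ℝ] C(ℕ → OnePoint I, ℝ)) (ε : ℝ) (C : ℕ) (J : ℕ)
    (Γ : Set I) (K n : ℕ → ℕ) (r : ℕ → Finset I) (e : ℕ → I → Finset I) : Prop where
  unc : ¬ Γ.Countable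
  two_pow : ∀ j < J, 2 ^ (j + 1) ≤ K j
  big : ∀ j < J, C * ∑ l ∈ Finset.range j, n l ≤ K j
  dep : ∀ j < J, ∀ ξ ∈ Γ, ∀ z z', Eqv (n j) (r j ∪ e j ξ) z z' →
        |T (phi (K j : ℝ) (ξ, j)) z - T (phi (K j : ℝ) (ξ, j)) z'| ≤ ε
  disj : ∀ j < J, ∀ ξ ∈ Γ, ∀ ξ' ∈ Γ, ξ ≠ ξ' → Disjoint (e j ξ) (e j ξ')

theorem exists_data [Uncountable I] (T : C(Ball (I × ℕ), ℝ) →L[ℝ] C(ℕ → OnePoint I, ℝ)) {ε : ℝ}
    (hε : 0 < ε) (C : ℕ) (J : ℕ) : ∃ (Γ : Set I) (K n : ℕ → ℕ) (r : ℕ → Finset I)
      (e : ℕ → I → Finset I), Data T ε C J Γ K n r e := by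
  induction J with
  | zero =>
    refine ⟨Set.univ, fun _ => 0, fun _ => 0, fun _ => ∅, fun _ _ => ∅, ?_, ?_, ?_, ?_, ?_⟩
    · exact Set.not_countable_univ
    all_goals intro j hj; exact absurd hj (Nat.not_lt_zero j)
  | succ J ih =>
    obtain ⟨Γ, K, n, r, e, h⟩ := ih
    set K₀ : ℕ := 2 ^ (J + 1) + C * ∑ l ∈ Finset.range J, n l with hK₀
    obtain ⟨Γ', hsub, hunc, n₀, r₀, e₀, hdep, hdisj⟩ := step T hε Γ h.unc K₀ J
    have hne : ∀ j < J, j ≠ J := fun j hj => hj.ne
    have hcases : ∀ j < J + 1, j < J ∨ j = J := fun j hj => by omega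
    have hsum : ∀ j ≤ J, ∑ l ∈ Finset.range j, Function.update n J n₀ l =
        ∑ l ∈ Finset.range j, n l := by
      intro j hj
      apply Finset.sum_congr rfl
      intro l hl
      rw [Finset.mem_range] at hl
      rw [Function.update_of_ne (by omega)]
    refine ⟨Γ', Function.update K J K₀, Function.update n J n₀, Function.update r J r₀,
      Function.update e J e₀, hunc, ?_, ?_, ?_, ?_⟩
    · intro j hj
      rcases hcases j hj with hj | rfl
      · rw [Function.update_of_ne (hne j hj)]; exact h.two_pow j hj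
      · rw [Function.update_self]; omega
    · intro j hj
      rcases hcases j hj with hj | rfl
      · rw [Function.update_of_ne (hne j hj), hsum j hj.le]; exact h.big j hj
      · rw [Function.update_self, hsum j le_rfl]; exact Nat.le_add_left _ _
    · intro j hj ξ hξ z z'
      rcases hcases j hj with hj | rfl
      · simp only [Function.update_of_ne (hne j hj)]; exact h.dep j hj ξ (hsub hξ) z z'
      · simp only [Function.update_self]; exact hdep ξ hξ z z'
    · intro j hj ξ hξ ξ' hξ' hne'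
      rcases hcases j hj with hj | rfl
      · simp only [Function.update_of_ne (hne j hj)]
        exact h.disj j hj ξ (hsub hξ) ξ' (hsub hξ') hne'
      · simp only [Function.update_self]; exact hdisj ξ hξ ξ' hξ' hne'

/-- `F_{j,D} = (1/K) ∑_{ξ ∈ D} φ_{K,(ξ,j)}`. -/
noncomputable def FF (K : ℕ) (j : ℕ) (D : Finset I) : C(Ball (I × ℕ), ℝ) :=
  ((K : ℝ)⁻¹) • ∑ ξ ∈ D, phi (K : ℝ) (ξ, j)

omit [DecidableEq I] [TopologicalSpace I] [DiscreteTopology I] in
theorem FF_apply (K : ℕ) (j : ℕ) (D : Finset I) (x : Ball (I × ℕ)) :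
    FF K j D x = (K : ℝ)⁻¹ * ∑ ξ ∈ D, phi (K : ℝ) (ξ, j) x := by
  simp [FF]

omit [DecidableEq I] [DiscreteTopology I] in
theorem T_FF_apply (T : C(Ball (I × ℕ), ℝ) →L[ℝ] C(ℕ → OnePoint I, ℝ)) (K : ℕ) (j : ℕ)
    (D : Finset I) (z : ℕ → OnePoint I) :
    T (FF K j D) z = (K : ℝ)⁻¹ * ∑ ξ ∈ D, T (phi (K : ℝ) (ξ, j)) z := by
  simp [FF, map_smul, map_sum]

/-- The sets `W_j`. -/
def WW (T : C(Ball (I × ℕ), ℝ) →L[ℝ] C(ℕ → OnePoint I, ℝ)) (Γ : Set I) (K n : ℕ → ℕ)
    (R : Finset I) (c : ℝ) (j : ℕ) : Set (ℕ → OnePoint I) :=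
  {z | ∃ (z' : ℕ → OnePoint I) (D : Finset I), (D : Set I) ⊆ Γ ∧ D.card = K j ∧
    Eqv (n j) R z z' ∧ c ≤ |T (FF (K j) j D) z'|}

omit [DecidableEq I] in
theorem isClopen_WW (T : C(Ball (I × ℕ), ℝ) →L[ℝ] C(ℕ → OnePoint I, ℝ)) (Γ : Set I)
    (K n : ℕ → ℕ) (R : Finset I) (c : ℝ) (j : ℕ) : IsClopen (WW T Γ K n R c j) := by
  apply isClopen_of_saturated (n j) R
  rintro z w hzw ⟨z', D, h1, h2, h3, h4⟩
  exact ⟨z', D, h1, h2, hzw.symm.trans h3, h4⟩

omit [DiscreteTopology I] in
/-- Key estimate (i): a point lies in boundedly many of the sets `W_j`. -/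
theorem card_le (T : C(Ball (I × ℕ), ℝ) →L[ℝ] C(ℕ → OnePoint I, ℝ)) {c CT : ℝ} (hc : 0 < c)
    (hCT : 0 < CT) (hT : ∀ f, ‖T f‖ ≤ CT * ‖f‖) {C J : ℕ} (hC : 16 * CT / c ≤ C)
    {Γ : Set I} {K n : ℕ → ℕ} {r : ℕ → Finset I} {e : ℕ → I → Finset I}
    (h : Data T (c / 4) C J Γ K n r e) (z : ℕ → OnePoint I) (A : Finset ℕ)
    (hA : ∀ j ∈ A, j < J ∧ z ∈ WW T Γ K n ((Finset.range J).biUnion r) c j) :
    (A.card : ℝ) * (c / 2) ≤ CT := by
  classical
  set R := (Finset.range J).biUnion r with hR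
  have hex : ∀ j, ∃ (z' : ℕ → OnePoint I) (D : Finset I), j ∈ A → ((D : Set I) ⊆ Γ ∧
      D.card = K j ∧ Eqv (n j) R z z' ∧ c ≤ |T (FF (K j) j D) z'|) := by
    intro j
    by_cases hj : j ∈ A
    · obtain ⟨z', D, hh⟩ := (hA j hj).2
      exact ⟨z', D, fun _ => hh⟩
    · exact ⟨z, ∅, fun h => absurd h hj⟩
  choose zz D hzD using hex
  let w : ℕ → OnePoint I := fun k =>
    if (∃ a ∈ R, z k = (a : OnePoint I)) then z k else
      if hk : ∃ j, j ∈ A ∧ k < n j then zz (Nat.find hk) k else z k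
  have claim1 : ∀ j ∈ A, ∀ k < n j, ∀ a ∈ R, (w k = (a : OnePoint I) ↔ zz j k = (a : OnePoint I)) := by
    intro j hj k hk a ha
    have h1 : (z k = (a : OnePoint I) ↔ zz j k = (a : OnePoint I)) :=
      (hzD j hj).2.2.1 k hk a ha
    rw [← h1]
    by_cases hRk : ∃ a ∈ R, z k = (a : OnePoint I)
    · have : w k = z k := if_pos hRk
      rw [this]
    · have hk' : ∃ j, j ∈ A ∧ k < n j := ⟨j, hj, hk⟩
      have hw : w k = zz (Nat.find hk') k := by
        show (if _ then _ else _) = _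
        rw [if_neg hRk, dif_pos hk']
      rw [hw]
      exact ((hzD _ (Nat.find_spec hk').1).2.2.1 k (Nat.find_spec hk').2 a ha).symm
  have claim2 : ∀ j ∈ A, ∀ k < n j, (∀ m ∈ A, m < j → n m ≤ k) → w k = zz j k := by
    intro j hj k hk hm
    by_cases hRk : ∃ a ∈ R, z k = (a : OnePoint I)
    · have : w k = z k := if_pos hRk
      obtain ⟨a, ha, hza⟩ := hRk
      rw [this, hza]
      exact (((hzD j hj).2.2.1 k hk a ha).1 hza).symm
    · have hk' : ∃ j, j ∈ A ∧ k < n j := ⟨j, hj, hk⟩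
      have hw : w k = zz (Nat.find hk') k := by
        show (if _ then _ else _) = _
        rw [if_neg hRk, dif_pos hk']
      have hle : Nat.find hk' ≤ j := Nat.find_min' hk' ⟨hj, hk⟩
      have heq : Nat.find hk' = j := by
        by_contra hne
        have hlt : Nat.find hk' < j := lt_of_le_of_ne hle hne
        have := hm _ (Nat.find_spec hk').1 hlt
        exact absurd (Nat.find_spec hk').2 (not_lt.2 this)
      rw [hw, heq]
  have claim3 : ∀ j ∈ A, |T (FF (K j) j (D j)) w - T (FF (K j) j (D j)) (zz j)| ≤ c / 2 := by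
    intro j hj
    obtain ⟨hDΓ, hDcard, hEq, hbig⟩ := hzD j hj
    have hjJ : j < J := (hA j hj).1
    set N := ∑ l ∈ Finset.range j, n l with hN
    have hKpos : (0 : ℝ) < K j := by
      have h1 : 2 ^ (j + 1) ≤ K j := h.two_pow j hjJ
      have h2 : 0 < K j := lt_of_lt_of_le (by positivity) h1
      exact_mod_cast h2
    let bad : Finset I := (Finset.range N).biUnion fun k =>
      ((D j).filter fun ξ => ∃ a ∈ e j ξ, w k = (a : OnePoint I)) ∪
      ((D j).filter fun ξ => ∃ a ∈ e j ξ, zz j k = (a : OnePoint I))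
    have hone : ∀ (p : OnePoint I),
        ((D j).filter fun ξ => ∃ a ∈ e j ξ, p = (a : OnePoint I)).card ≤ 1 := by
      intro p
      rw [Finset.card_le_one]
      intro ξ hξ ξ' hξ'
      rw [Finset.mem_filter] at hξ hξ'
      obtain ⟨hξD, a, ha, hpa⟩ := hξ
      obtain ⟨hξD', a', ha', hpa'⟩ := hξ'
      by_contra hne
      have hd := h.disj j hjJ ξ (hDΓ hξD) ξ' (hDΓ hξD') hne
      have : a = a' := OnePoint.coe_injective (hpa.symm.trans hpa')
      subst this
      exact (Finset.disjoint_left.1 hd ha) ha'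
    have hbadcard : bad.card ≤ 2 * N := by
      calc bad.card ≤ ∑ k ∈ Finset.range N,
            (((D j).filter fun ξ => ∃ a ∈ e j ξ, w k = (a : OnePoint I)) ∪
            ((D j).filter fun ξ => ∃ a ∈ e j ξ, zz j k = (a : OnePoint I))).card :=
            Finset.card_biUnion_le
        _ ≤ ∑ k ∈ Finset.range N, 2 := by
            apply Finset.sum_le_sum
            intro k _
            have := Finset.card_union_le
              ((D j).filter fun ξ => ∃ a ∈ e j ξ, w k = (a : OnePoint I))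
              ((D j).filter fun ξ => ∃ a ∈ e j ξ, zz j k = (a : OnePoint I))
            have h1 := hone (w k)
            have h2 := hone (zz j k)
            omega
        _ = 2 * N := by simp [mul_comm]
    have hgood : ∀ ξ ∈ D j, ξ ∉ bad →
        |T (phi (K j : ℝ) (ξ, j)) w - T (phi (K j : ℝ) (ξ, j)) (zz j)| ≤ c / 4 := by
      intro ξ hξ hξb
      apply h.dep j hjJ ξ (hDΓ hξ)
      intro k hk a ha
      rw [Finset.mem_union] at ha
      rcases ha with ha | ha
      · exact claim1 j hj k hk a (Finset.mem_biUnion.2 ⟨j, Finset.mem_range.2 hjJ, ha⟩)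
      · by_cases hkN : k < N
        · have hb1 : ¬ w k = (a : OnePoint I) := by
            intro hh
            exact hξb (Finset.mem_biUnion.2 ⟨k, Finset.mem_range.2 hkN, Finset.mem_union_left _
              (Finset.mem_filter.2 ⟨hξ, a, ha, hh⟩)⟩)
          have hb2 : ¬ zz j k = (a : OnePoint I) := by
            intro hh
            exact hξb (Finset.mem_biUnion.2 ⟨k, Finset.mem_range.2 hkN, Finset.mem_union_right _
              (Finset.mem_filter.2 ⟨hξ, a, ha, hh⟩)⟩)
          exact iff_of_false hb1 hb2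
        · rw [claim2 j hj k hk]
          intro m hm hmj
          have : n m ≤ N := Finset.single_le_sum (f := n) (fun _ _ => Nat.zero_le _)
            (Finset.mem_range.2 hmj)
          omega
    have hall : ∀ ξ ∈ D j,
        |T (phi (K j : ℝ) (ξ, j)) w - T (phi (K j : ℝ) (ξ, j)) (zz j)| ≤
          c / 4 + if ξ ∈ bad then 2 * CT else 0 := by
      intro ξ hξ
      by_cases hb : ξ ∈ bad
      · rw [if_pos hb]
        have hn : ‖T (phi (K j : ℝ) (ξ, j))‖ ≤ CT := by
          calc ‖T (phi (K j : ℝ) (ξ, j))‖ ≤ CT * ‖phi (K j : ℝ) (ξ, j)‖ := hT _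
            _ ≤ CT * 1 := by
              apply mul_le_mul_of_nonneg_left (norm_phi_le hKpos.le _) hCT.le
            _ = CT := mul_one _
        have h1 := (ContinuousMap.norm_coe_le_norm (T (phi (K j : ℝ) (ξ, j))) w).trans hn
        have h2 := (ContinuousMap.norm_coe_le_norm (T (phi (K j : ℝ) (ξ, j))) (zz j)).trans hn
        rw [Real.norm_eq_abs, abs_le] at h1 h2
        rw [abs_le]
        constructor <;> linarith [h1.1, h1.2, h2.1, h2.2]
      · rw [if_neg hb, add_zero]
        exact hgood ξ hξ hb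
    rw [T_FF_apply, T_FF_apply, ← mul_sub, ← Finset.sum_sub_distrib, abs_mul, abs_inv,
      abs_of_pos hKpos]
    have hsum : |∑ ξ ∈ D j, (T (phi (K j : ℝ) (ξ, j)) w - T (phi (K j : ℝ) (ξ, j)) (zz j))| ≤
        (K j : ℝ) * (c / 4) + 2 * N * (2 * CT) := by
      calc |∑ ξ ∈ D j, (T (phi (K j : ℝ) (ξ, j)) w - T (phi (K j : ℝ) (ξ, j)) (zz j))|
          ≤ ∑ ξ ∈ D j, |T (phi (K j : ℝ) (ξ, j)) w - T (phi (K j : ℝ) (ξ, j)) (zz j)| :=
            Finset.abs_sum_le_sum_abs _ _
        _ ≤ ∑ ξ ∈ D j, (c / 4 + if ξ ∈ bad then 2 * CT else 0) := Finset.sum_le_sum hall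
        _ = (K j : ℝ) * (c / 4) + ((D j).filter (· ∈ bad)).card * (2 * CT) := by
            rw [Finset.sum_add_distrib, Finset.sum_const, hDcard, ← Finset.sum_filter,
              Finset.sum_const]
            simp
        _ ≤ (K j : ℝ) * (c / 4) + 2 * N * (2 * CT) := by
            have h1 : ((D j).filter (· ∈ bad)).card ≤ bad.card := by
              apply Finset.card_le_card
              intro x hx
              exact (Finset.mem_filter.1 hx).2
            have h2 : (((D j).filter (· ∈ bad)).card : ℝ) ≤ 2 * N := by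
              exact_mod_cast h1.trans hbadcard
            have h3 : (0 : ℝ) ≤ 2 * CT := by positivity
            have := mul_le_mul_of_nonneg_right h2 h3
            linarith
    have hbigK : (C : ℝ) * N ≤ K j := by exact_mod_cast h.big j hjJ
    have h16 : 16 * CT ≤ C * c := by rwa [div_le_iff₀ hc] at hC
    have hNnn : (0 : ℝ) ≤ N := Nat.cast_nonneg _
    have hNK : 2 * (N : ℝ) * (2 * CT) ≤ K j * (c / 4) := by
      have h1 : 16 * CT * N ≤ C * c * N := mul_le_mul_of_nonneg_right h16 hNnn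
      have h2 : C * (N : ℝ) * c ≤ K j * c := mul_le_mul_of_nonneg_right hbigK hc.le
      nlinarith
    rw [inv_mul_le_iff₀ hKpos]
    linarith
  have claim4 : ∀ j ∈ A, c / 2 ≤ |T (FF (K j) j (D j)) w| := by
    intro j hj
    have h1 := claim3 j hj
    have h2 := (hzD j hj).2.2.2
    have h3 : |T (FF (K j) j (D j)) (zz j)| - |T (FF (K j) j (D j)) w| ≤
        |T (FF (K j) j (D j)) (zz j) - T (FF (K j) j (D j)) w| := abs_sub_abs_le_abs_sub _ _
    rw [abs_sub_comm] at h3
    linarith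
  set s : ℕ → ℝ := fun j => SignType.sign (T (FF (K j) j (D j)) w) with hs
  set F : C(Ball (I × ℕ), ℝ) := ∑ j ∈ A, s j • FF (K j) j (D j) with hF
  have hTF : T F w = ∑ j ∈ A, |T (FF (K j) j (D j)) w| := by
    rw [hF, map_sum, ContinuousMap.sum_apply]
    apply Finset.sum_congr rfl
    intro j _
    rw [map_smul, ContinuousMap.smul_apply, smul_eq_mul]
    exact sign_mul_self _
  have hFnorm : ‖F‖ ≤ 1 := by
    rw [ContinuousMap.norm_le _ zero_le_one]
    intro x
    rw [Real.norm_eq_abs, hF, ContinuousMap.sum_apply]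
    calc |∑ j ∈ A, (s j • FF (K j) j (D j)) x| ≤ ∑ j ∈ A, |(s j • FF (K j) j (D j)) x| :=
          Finset.abs_sum_le_sum_abs _ _
      _ ≤ ∑ j ∈ A, ∑ ξ ∈ D j, |x.1 (ξ, j)| := by
          apply Finset.sum_le_sum
          intro j hj
          have hKpos : (0 : ℝ) < K j := by
            have h1 : 2 ^ (j + 1) ≤ K j := h.two_pow j (hA j hj).1
            have h2 : 0 < K j := lt_of_lt_of_le (by positivity) h1
            exact_mod_cast h2
          rw [ContinuousMap.smul_apply, smul_eq_mul, abs_mul, FF_apply, abs_mul, abs_inv,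
            abs_of_pos hKpos]
          have hsj : |s j| ≤ 1 := by
            simp only [hs]
            rcases lt_trichotomy (T (FF (K j) j (D j)) w) 0 with h0 | h0 | h0
            · simp [sign_neg h0]
            · simp [h0]
            · simp [sign_pos h0]
          have hsum : |∑ ξ ∈ D j, phi (K j : ℝ) (ξ, j) x| ≤ K j * ∑ ξ ∈ D j, |x.1 (ξ, j)| := by
            rw [Finset.mul_sum]
            refine (Finset.abs_sum_le_sum_abs _ _).trans (Finset.sum_le_sum fun ξ _ => ?_)
            rw [abs_of_nonneg (phi_nonneg hKpos.le _ _), phi_apply]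
            exact min_le_left _ _
          have h2 : (K j : ℝ)⁻¹ * |∑ ξ ∈ D j, phi (K j : ℝ) (ξ, j) x| ≤
              ∑ ξ ∈ D j, |x.1 (ξ, j)| := by
            rw [inv_mul_le_iff₀ hKpos]; exact hsum
          calc |s j| * ((K j : ℝ)⁻¹ * |∑ ξ ∈ D j, phi (K j : ℝ) (ξ, j) x|)
              ≤ 1 * ((K j : ℝ)⁻¹ * |∑ ξ ∈ D j, phi (K j : ℝ) (ξ, j) x|) := by
                apply mul_le_mul_of_nonneg_right hsj
                positivity
            _ ≤ _ := by rw [one_mul]; exact h2
      _ = ∑ p ∈ (A.sigma D).image (fun q : (Σ _ : ℕ, I) => (q.2, q.1)), |x.1 p| := by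
          rw [Finset.sum_image, Finset.sum_sigma]
          rintro ⟨a, b⟩ _ ⟨a', b'⟩ _ hab
          simp only [Prod.mk.injEq] at hab
          obtain ⟨rfl, rfl⟩ := hab
          rfl
      _ ≤ 1 := x.2 _
  have hfin : T F w ≤ CT := by
    have h1 := (ContinuousMap.norm_coe_le_norm (T F) w).trans (hT F)
    have h2 : CT * ‖F‖ ≤ CT * 1 := mul_le_mul_of_nonneg_left hFnorm hCT.le
    rw [Real.norm_eq_abs] at h1
    linarith [le_abs_self (T F w)]
  calc (A.card : ℝ) * (c / 2) = ∑ j ∈ A, c / 2 := by simp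
    _ ≤ ∑ j ∈ A, |T (FF (K j) j (D j)) w| := Finset.sum_le_sum claim4
    _ = T F w := hTF.symm
    _ ≤ CT := hfin


/-- The main impossibility theorem. -/
theorem main [Uncountable I] (T : C(Ball (I × ℕ), ℝ) →L[ℝ] C(ℕ → OnePoint I, ℝ))
    (S : C(ℕ → OnePoint I, ℝ) →L[ℝ] C(Ball (I × ℕ), ℝ)) (hST : ∀ f, S (T f) = f) : False := by
  classical
  obtain ⟨CT, hCT, hT⟩ : ∃ CT : ℝ, 0 < CT ∧ ∀ f, ‖T f‖ ≤ CT * ‖f‖ := by
    refine ⟨‖T‖ + 1, by positivity, fun f => (T.le_opNorm f).trans ?_⟩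
    exact mul_le_mul_of_nonneg_right (by linarith) (norm_nonneg _)
  obtain ⟨CS, hCS, hS⟩ : ∃ CS : ℝ, 0 < CS ∧ ∀ f, ‖S f‖ ≤ CS * ‖f‖ := by
    refine ⟨‖S‖ + 1, by positivity, fun f => (S.le_opNorm f).trans ?_⟩
    exact mul_le_mul_of_nonneg_right (by linarith) (norm_nonneg _)
  set c : ℝ := 1 / (2 * CS) with hc_def
  have hc : 0 < c := by positivity
  have hcCS : CS * c = 1 / 2 := by rw [hc_def]; field_simp
  obtain ⟨C, hC⟩ := exists_nat_ge (16 * CT / c)
  obtain ⟨J, hJ⟩ := exists_nat_gt (4 * (CS * (2 * CT / c * CT)))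
  obtain ⟨Γ, K, n, r, e, h⟩ := exists_data T (ε := c / 4) (by positivity) C J
  set R := (Finset.range J).biUnion r with hR
  set W : ℕ → Set (ℕ → OnePoint I) := fun j => WW T Γ K n R c j with hW_def
  have hW : ∀ j, IsClopen (W j) := fun j => isClopen_WW T Γ K n R c j
  have hKpos : ∀ j < J, (0 : ℝ) < K j := by
    intro j hj
    have h1 : 2 ^ (j + 1) ≤ K j := h.two_pow j hj
    have h2 : 0 < K j := lt_of_lt_of_le (by positivity) h1
    exact_mod_cast h2
  have htnorm : ∀ j < J, ∀ ξ, ∀ z, |T (phi (K j : ℝ) (ξ, j)) z| ≤ CT := by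
    intro j hj ξ z
    have hn : ‖T (phi (K j : ℝ) (ξ, j))‖ ≤ CT := by
      calc ‖T (phi (K j : ℝ) (ξ, j))‖ ≤ CT * ‖phi (K j : ℝ) (ξ, j)‖ := hT _
        _ ≤ CT * 1 := mul_le_mul_of_nonneg_left (norm_phi_le (hKpos j hj).le _) hCT.le
        _ = CT := mul_one _
    exact (ContinuousMap.norm_coe_le_norm (T (phi (K j : ℝ) (ξ, j))) z).trans hn
  set g : ℕ → I → C(ℕ → OnePoint I, ℝ) := fun j ξ =>
    cut (W j) (hW j) (T (phi (K j : ℝ) (ξ, j))) with hg
  choose a ha using fun (j : ℕ) (ξ : I) => lemmaB (S (g j ξ)) (ε := 1 / 4) (by norm_num)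
  set b : I → Finset I := fun ξ =>
    (Finset.range J).biUnion fun j => (a j ξ).image Prod.fst with hb
  obtain ⟨D, hD1, hD2, hD3⟩ := free_blocks b Γ h.unc K J
  -- the points `x_j`
  have hxj : ∀ j < J, ∀ s : Finset (I × ℕ),
      ∑ p ∈ s, |if p.2 = j ∧ p.1 ∈ D j then (K j : ℝ)⁻¹ else 0| ≤ 1 := by
    intro j hj s
    have hK := hKpos j hj
    calc ∑ p ∈ s, |if p.2 = j ∧ p.1 ∈ D j then (K j : ℝ)⁻¹ else 0|
        = ∑ p ∈ s.filter (fun p => p.2 = j ∧ p.1 ∈ D j), (K j : ℝ)⁻¹ := by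
          rw [Finset.sum_filter]
          apply Finset.sum_congr rfl
          intro p _
          split_ifs
          · exact abs_of_pos (inv_pos.2 hK)
          · exact abs_zero
      _ = (s.filter (fun p => p.2 = j ∧ p.1 ∈ D j)).card * (K j : ℝ)⁻¹ := by simp
      _ ≤ (K j : ℝ) * (K j : ℝ)⁻¹ := by
          apply mul_le_mul_of_nonneg_right _ (inv_pos.2 hK).le
          rw [← (hD1 j hj).2]
          have : (s.filter (fun p => p.2 = j ∧ p.1 ∈ D j)).card ≤
              ((D j).image fun ξ => (ξ, j)).card := by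
            apply Finset.card_le_card
            rintro ⟨ξ, l⟩ hp
            rw [Finset.mem_filter] at hp
            obtain ⟨_, hl, hξ⟩ := hp
            simp only at hl hξ
            subst hl
            exact Finset.mem_image_of_mem _ hξ
          exact_mod_cast this.trans Finset.card_image_le
      _ = 1 := mul_inv_cancel₀ hK.ne'
  let x : ∀ j, j < J → Ball (I × ℕ) := fun j hj =>
    ⟨fun p => if p.2 = j ∧ p.1 ∈ D j then (K j : ℝ)⁻¹ else 0, hxj j hj⟩
  -- value of `F_{j,D_j}` at `x_j`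
  have hFx : ∀ j (hj : j < J), FF (K j) j (D j) (x j hj) = 1 := by
    intro j hj
    have hK := hKpos j hj
    rw [FF_apply]
    have : ∀ ξ ∈ D j, phi (K j : ℝ) (ξ, j) (x j hj) = 1 := by
      intro ξ hξ
      rw [phi_apply]
      have : (x j hj).1 (ξ, j) = (K j : ℝ)⁻¹ := if_pos ⟨rfl, hξ⟩
      rw [this, abs_of_pos (inv_pos.2 hK), mul_inv_cancel₀ hK.ne', min_self]
    rw [Finset.sum_congr rfl this, Finset.sum_const, (hD1 j hj).2, nsmul_eq_mul, mul_one,
      inv_mul_cancel₀ hK.ne']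
  have hpick : ∀ j, ∃ ξ : I, ∀ hj : j < J, ξ ∈ D j ∧ 1 / 2 ≤ S (g j ξ) (x j hj) := by
    intro j
    by_cases hj : j < J
    · have hK := hKpos j hj
      set t := T (FF (K j) j (D j)) with ht
      have hsplit : t = cut (W j) (hW j) t + cut (W j)ᶜ (hW j).compl t := by
        ext z
        rw [ContinuousMap.add_apply]
        by_cases hz : z ∈ W j
        · rw [cut_apply_mem _ _ hz, cut_apply_notMem _ _ (by simpa using hz), add_zero]
        · rw [cut_apply_notMem _ _ hz, cut_apply_mem _ _ (by simpa using hz), zero_add]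
      have hsmall : ‖cut (W j)ᶜ (hW j).compl t‖ ≤ c := by
        rw [ContinuousMap.norm_le _ hc.le]
        intro z
        rw [Real.norm_eq_abs]
        by_cases hz : z ∈ W j
        · rw [cut_apply_notMem _ _ (by simpa using hz), abs_zero]; exact hc.le
        · rw [cut_apply_mem _ _ (by simpa using hz)]
          by_contra hcon
          push Not at hcon
          exact hz ⟨z, D j, (hD1 j hj).1, (hD1 j hj).2, Eqv.refl _ _ _, hcon.le⟩
      have h1 : S t (x j hj) = 1 := by rw [ht, hST]; exact hFx j hj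
      have h2 : |S (cut (W j)ᶜ (hW j).compl t) (x j hj)| ≤ 1 / 2 := by
        have := (ContinuousMap.norm_coe_le_norm (S (cut (W j)ᶜ (hW j).compl t)) (x j hj)).trans
          (hS _)
        rw [Real.norm_eq_abs] at this
        calc |S (cut (W j)ᶜ (hW j).compl t) (x j hj)| ≤ CS * ‖cut (W j)ᶜ (hW j).compl t‖ := this
          _ ≤ CS * c := mul_le_mul_of_nonneg_left hsmall hCS.le
          _ = 1 / 2 := hcCS
      have h3 : S (cut (W j) (hW j) t) (x j hj) ≥ 1 / 2 := by
        have : S t (x j hj) = S (cut (W j) (hW j) t) (x j hj) +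
            S (cut (W j)ᶜ (hW j).compl t) (x j hj) := by
          conv_lhs => rw [hsplit]
          rw [map_add, ContinuousMap.add_apply]
        have h4 := (abs_le.1 h2).2
        linarith
      have h5 : cut (W j) (hW j) t = (K j : ℝ)⁻¹ • ∑ ξ ∈ D j, g j ξ := by
        ext z
        rw [ContinuousMap.smul_apply, ContinuousMap.sum_apply, smul_eq_mul]
        by_cases hz : z ∈ W j
        · rw [cut_apply_mem _ _ hz, ht, T_FF_apply]
          congr 1
          apply Finset.sum_congr rfl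
          intro ξ _
          exact (cut_apply_mem (hW j) (T (phi (K j : ℝ) (ξ, j))) hz).symm
        · rw [cut_apply_notMem _ _ hz]
          rw [Finset.sum_eq_zero, mul_zero]
          intro ξ _
          exact cut_apply_notMem (hW j) (T (phi (K j : ℝ) (ξ, j))) hz
      by_contra hcon
      push Not at hcon
      have hlt : ∀ ξ ∈ D j, S (g j ξ) (x j hj) < 1 / 2 := by
        intro ξ hξ
        obtain ⟨hj', h6⟩ := hcon ξ
        exact h6 hξ
      have hDne : (D j).Nonempty := by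
        rw [← Finset.card_pos, (hD1 j hj).2]; exact_mod_cast hK
      have h7 : S (cut (W j) (hW j) t) (x j hj) < 1 / 2 := by
        rw [h5, map_smul, map_sum, ContinuousMap.smul_apply, ContinuousMap.sum_apply, smul_eq_mul,
          inv_mul_lt_iff₀ hK]
        calc ∑ ξ ∈ D j, S (g j ξ) (x j hj) < ∑ ξ ∈ D j, (1 / 2 : ℝ) :=
              Finset.sum_lt_sum_of_nonempty hDne hlt
          _ = (K j : ℝ) * (1 / 2) := by rw [Finset.sum_const, (hD1 j hj).2, nsmul_eq_mul]
      linarith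
    · obtain ⟨ξ⟩ : Nonempty I := inferInstance
      exact ⟨ξ, fun h => absurd h hj⟩
  choose ξ hξ using hpick
  -- the point `x*`
  have hxs : ∀ s : Finset (I × ℕ),
      ∑ p ∈ s, |if p.2 < J ∧ p.1 = ξ p.2 then (K p.2 : ℝ)⁻¹ else 0| ≤ 1 := by
    intro s
    calc ∑ p ∈ s, |if p.2 < J ∧ p.1 = ξ p.2 then (K p.2 : ℝ)⁻¹ else 0|
        = ∑ p ∈ s.filter (fun p => p.2 < J ∧ p.1 = ξ p.2), (K p.2 : ℝ)⁻¹ := by
          rw [Finset.sum_filter]
          apply Finset.sum_congr rfl
          intro p _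
          split_ifs with hp
          · exact abs_of_pos (inv_pos.2 (hKpos _ hp.1))
          · exact abs_zero
      _ ≤ ∑ p ∈ (Finset.range J).image (fun l => (ξ l, l)), (K p.2 : ℝ)⁻¹ := by
          apply Finset.sum_le_sum_of_subset_of_nonneg
          · rintro ⟨η, l⟩ hp
            rw [Finset.mem_filter] at hp
            obtain ⟨_, hl, hη⟩ := hp
            simp only at hl hη
            subst hη
            exact Finset.mem_image_of_mem _ (Finset.mem_range.2 hl)
          · intro p _ _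
            positivity
      _ = ∑ l ∈ Finset.range J, (K l : ℝ)⁻¹ := by
          rw [Finset.sum_image]
          intro l _ l' _ hll
          exact congrArg Prod.snd hll
      _ ≤ ∑ l ∈ Finset.range J, (1 / 2 : ℝ) ^ (l + 1) := by
          apply Finset.sum_le_sum
          intro l hl
          rw [Finset.mem_range] at hl
          have h1 : (2 : ℝ) ^ (l + 1) ≤ K l := by exact_mod_cast h.two_pow l hl
          rw [one_div, inv_pow]
          exact inv_anti₀ (by positivity) h1
      _ ≤ 1 := by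
          have : ∀ N : ℕ, ∑ l ∈ Finset.range N, (1 / 2 : ℝ) ^ (l + 1) = 1 - (1 / 2) ^ N := by
            intro N
            induction N with
            | zero => simp
            | succ N ih => rw [Finset.sum_range_succ, ih, pow_succ]; ring
          rw [this]
          have : (0 : ℝ) ≤ (1 / 2) ^ J := by positivity
          linarith
  let xs : Ball (I × ℕ) := ⟨fun p => if p.2 < J ∧ p.1 = ξ p.2 then (K p.2 : ℝ)⁻¹ else 0, hxs⟩
  have hagree : ∀ j (hj : j < J), ∀ p ∈ a j (ξ j), xs.1 p = (x j hj).1 p := by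
    rintro j hj ⟨η, l⟩ hp
    have hξj := (hξ j hj).1
    show (if l < J ∧ η = ξ l then (K l : ℝ)⁻¹ else 0) =
      (if l = j ∧ η ∈ D j then (K j : ℝ)⁻¹ else 0)
    have hηb : η ∈ b (ξ j) :=
      Finset.mem_biUnion.2 ⟨j, Finset.mem_range.2 hj, Finset.mem_image.2 ⟨(η, l), hp, rfl⟩⟩
    by_cases hηξ : η = ξ j
    · subst hηξ
      by_cases hlj : l = j
      · subst hlj
        rw [if_pos ⟨hj, rfl⟩, if_pos ⟨rfl, hξj⟩]
      · rw [if_neg, if_neg]
        · rintro ⟨h1, _⟩; exact hlj h1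
        · rintro ⟨h1, h2⟩
          apply hlj
          have h3 := (hξ l h1).1
          rw [← h2] at h3
          exact hD2 l h1 j hj (ξ j) h3 hξj
    · have hnot : ∀ l < J, η ∉ D l := by
        intro l hl hηl
        exact hD3 j hj l hl (ξ j) hξj η hηl (fun h => hηξ h.symm) hηb
      rw [if_neg, if_neg]
      · rintro ⟨_, h2⟩; exact hnot j hj h2
      · rintro ⟨h1, h2⟩
        apply hnot l h1
        rw [h2]
        exact (hξ l h1).1
  have hquarter : ∀ j < J, 1 / 4 ≤ S (g j (ξ j)) xs := by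
    intro j hj
    have h1 := (hξ j hj).2
    have h2 := ha j (ξ j) xs (x j hj) (hagree j hj)
    have h3 := (abs_le.1 h2).1
    linarith
  set f : C(ℕ → OnePoint I, ℝ) := ∑ j ∈ Finset.range J, g j (ξ j) with hf
  have hfnorm : ‖f‖ ≤ 2 * CT / c * CT := by
    rw [ContinuousMap.norm_le _ (by positivity)]
    intro z
    rw [Real.norm_eq_abs, hf, ContinuousMap.sum_apply]
    set A := (Finset.range J).filter (fun j => z ∈ W j) with hA
    have hAcard : (A.card : ℝ) ≤ 2 * CT / c := by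
      have := card_le T hc hCT hT hC h z A (by
        intro j hj
        rw [hA, Finset.mem_filter, Finset.mem_range] at hj
        exact hj)
      rw [le_div_iff₀ hc]
      linarith
    calc |∑ j ∈ Finset.range J, g j (ξ j) z| ≤ ∑ j ∈ Finset.range J, |g j (ξ j) z| :=
          Finset.abs_sum_le_sum_abs _ _
      _ ≤ ∑ j ∈ Finset.range J, if z ∈ W j then CT else 0 := by
          apply Finset.sum_le_sum
          intro j hj
          rw [Finset.mem_range] at hj
          by_cases hz : z ∈ W j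
          · rw [if_pos hz]
            have : g j (ξ j) z = T (phi (K j : ℝ) (ξ j, j)) z := cut_apply_mem _ _ hz
            rw [this]
            exact htnorm j hj _ _
          · rw [if_neg hz]
            have : g j (ξ j) z = 0 := cut_apply_notMem _ _ hz
            rw [this, abs_zero]
      _ = A.card * CT := by
          rw [← Finset.sum_filter, Finset.sum_const, nsmul_eq_mul]
      _ ≤ 2 * CT / c * CT := mul_le_mul_of_nonneg_right hAcard hCT.le
  have hlow : (J : ℝ) / 4 ≤ S f xs := by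
    rw [hf, map_sum, ContinuousMap.sum_apply]
    calc (J : ℝ) / 4 = ∑ j ∈ Finset.range J, (1 / 4 : ℝ) := by
          rw [Finset.sum_const, Finset.card_range, nsmul_eq_mul]; ring
      _ ≤ _ := Finset.sum_le_sum fun j hj => hquarter j (Finset.mem_range.1 hj)
  have hup : S f xs ≤ CS * (2 * CT / c * CT) := by
    have h1 := (ContinuousMap.norm_coe_le_norm (S f) xs).trans (hS f)
    rw [Real.norm_eq_abs] at h1
    have h2 := mul_le_mul_of_nonneg_left hfnorm hCS.le
    linarith [le_abs_self (S f xs)]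
  linarith

end Pool.Agent.Lib.MP_882ac6_an
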